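import Pool.Agent.N115.JS.Stm2
import Pool.Agent.N459.JS.Weier
import Pool.Agent.W602.GT.SBroC
import Pool.Agent.W602.GT.Lam
import Pool.Agent.W602.GT.Gm

/-!
# Project JS (helper115), part 8: unirational varieties contain Zariski-dense entire curves
-/

set_option autoImplicit false
set_option linter.overlappingInstances false
set_option linter.unusedSectionVars false

open Filter Topology
open Pool.Agent.W602.GT
open Pool.Agent.W619.TW (IsUnirational)
open Pool.Agent.N115.JS (UnirBrody)

namespace Pool.Agent.N234.JS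

variable {k : Type} [Field k]

/-- Homogeneous coordinates of a unirational variety are, up to a factor, polynomials. -/
theorem param {L : Type} [Field L] [Algebra k L] {w M : ℕ}
    (h : IsUnirational k L w) {x : Fin (M + 1) → L} (hx : x ≠ 0) :
    ∃ (p : Fin (M + 1) → MvPolynomial (Fin w) k) (i0 : Fin (M + 1)), p i0 ≠ 0 ∧
      ∀ (G : MvPolynomial (Fin (M + 1)) k), IsForm G →
      (val x G = 0 ↔ MvPolynomial.aeval p G = 0) := by
  classical
  obtain ⟨φ⟩ := h
  obtain ⟨i0, hi0⟩ := Function.ne_iff.1 hx
  have hi0' : x i0 ≠ 0 := hi0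
  set R := MvPolynomial (Fin w) k
  set Q := FractionRing R
  let u : Fin (M + 1) → Q := fun i => φ (x i / x i0)
  have hu0 : u i0 = 1 := by
    simp only [u]
    rw [div_self hi0', map_one]
  obtain ⟨b, hb⟩ := IsLocalization.exist_integer_multiples_of_finset (nonZeroDivisors R)
    (Finset.univ.image u)
  have hb' : ∀ i, ∃ p : R, algebraMap R Q p = algebraMap R Q b * u i := by
    intro i
    obtain ⟨p, hp⟩ := hb (u i) (Finset.mem_image_of_mem u (Finset.mem_univ i))
    exact ⟨p, by rw [hp, Algebra.smul_def]⟩
  choose p hp using hb'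
  have hb0 : (b : R) ≠ 0 := nonZeroDivisors.ne_zero b.2
  have hbQ : algebraMap R Q b ≠ 0 := by
    rw [Ne, map_eq_zero_iff _ (IsFractionRing.injective R Q)]
    exact hb0
  have hpi0 : p i0 = b := by
    apply IsFractionRing.injective R Q
    rw [hp, hu0, mul_one]
  refine ⟨p, i0, by rw [hpi0]; exact hb0, ?_⟩
  rintro G ⟨d, hd⟩
  have h1 : val (fun i => x i0 * (x i / x i0)) G = x i0 ^ d * val (fun i => x i / x i0) G :=
    val_smul hd _ _
  have h2 : (fun i => x i0 * (x i / x i0)) = x := funext fun i => by field_simp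
  rw [h2] at h1
  have h3 : φ (val (fun i => x i / x i0) G) = val u G := by
    unfold val
    rw [← MvPolynomial.comp_aeval_apply]
  have h4 : val (fun i => algebraMap R Q b * u i) G = algebraMap R Q b ^ d * val u G :=
    val_smul hd _ _
  have h5 : val (fun i => algebraMap R Q b * u i) G = algebraMap R Q (MvPolynomial.aeval p G) := by
    have h6 : (fun i => algebraMap R Q b * u i) = fun i => algebraMap R Q (p i) :=
      funext fun i => (hp i).symm
    rw [h6]
    unfold val
    exact (MvPolynomial.aeval_algebraMap_apply Q p G)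
  constructor
  · intro h0
    rw [h1, mul_eq_zero, or_iff_right (pow_ne_zero _ hi0')] at h0
    rw [h0, map_zero] at h3
    rw [← h3, mul_zero, h5, map_eq_zero_iff _ (IsFractionRing.injective R Q)] at h4
    exact h4
  · intro h0
    rw [h5, h0, map_zero] at h4
    have h6 : val u G = 0 := by
      rcases mul_eq_zero.1 h4.symm with h | h
      · exact absurd h (pow_ne_zero _ hbQ)
      · exact h
    rw [h6, map_eq_zero] at h3
    rw [h1, h3, mul_zero]

theorem aeval_hol {w : ℕ} (g : ℂ → Fin w → ℂ) (hg : ∀ l, Differentiable ℂ fun z => g z l)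
    (G : MvPolynomial (Fin w) ℂ) :
    Differentiable ℂ (fun t => MvPolynomial.aeval (g t) G) := by
  induction G using MvPolynomial.induction_on with
  | C a => simp only [MvPolynomial.aeval_C]; exact differentiable_const _
  | add p q hp hq => simp only [map_add]; exact hp.add hq
  | mul_X p i hp => simp only [map_mul, MvPolynomial.aeval_X]; exact hp.mul (hg i)

/-- **JS/8.** Unirational projective varieties contain Zariski-dense entire curves. -/
theorem unirBrody : UnirBrody := by
  intro L _ _ w M x hx _ h
  obtain ⟨p, i0, hp0, hform⟩ := param h hx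
  obtain ⟨lam, hlam⟩ := exists_lam ℂ w
  set g : ℂ → Fin w → ℂ := fun z l => Complex.exp (lam l * z) with hg
  have hgd : ∀ l, Differentiable ℂ fun z => g z l := by
    intro l
    exact (differentiable_id.const_mul (lam l)).cexp
  set F : Fin (M + 1) → ℂ → ℂ := fun i z => MvPolynomial.aeval (g z) (p i) with hF
  have hFd : ∀ i, Differentiable ℂ (F i) := fun i => aeval_hol g hgd (p i)
  have hne : ∃ i t, F i t ≠ 0 := by
    by_contra hcon
    push Not at hcon
    exact hp0 (exp_indep lam hlam (p i0) fun z => hcon i0 z)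
  obtain ⟨q, g', hq, hg', hgq, hg0⟩ := Pool.Agent.N459.JS.remove F hFd hne
  obtain ⟨i1, t0, ht0⟩ := hne
  have hq0 : q t0 ≠ 0 := by
    rw [hgq] at ht0
    exact left_ne_zero_of_mul ht0
  have hval : ∀ (G : MvPolynomial (Fin (M + 1)) ℂ) (t : ℂ),
      val (fun i => F i t) G = MvPolynomial.aeval (g t) (MvPolynomial.aeval p G) := by
    intro G t
    unfold val
    rw [hF, MvPolynomial.comp_aeval_apply]
  have hscale : ∀ (G : MvPolynomial (Fin (M + 1)) ℂ) (d : ℕ), G.IsHomogeneous d → ∀ t,
      val (fun i => F i t) G = q t ^ d * val (fun i => g' i t) G := by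
    intro G d hd t
    have h1 : (fun i => F i t) = fun i => q t * g' i t := funext fun i => hgq i t
    rw [h1]
    exact val_smul hd _ _
  refine ⟨fun t i => g' i t, differentiable_pi.2 hg', fun z => ⟨⟨?_, ?_⟩, ?_⟩, ?_⟩
  · intro h0
    obtain ⟨i, hi⟩ := hg0 z
    exact hi (congrFun h0 i)
  · rintro G ⟨d, hd⟩ hxG
    by_contra hs
    have h0 : MvPolynomial.aeval p G = 0 := (hform G ⟨d, hd⟩).1 hxG
    have h1 : ∀ t, q t ^ d * val (fun i => g' i t) G = 0 := by
      intro t
      rw [← hscale G d hd t, hval, h0, map_zero]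
    have hFG : Differentiable ℂ (fun s => val (fun i => g' i s) G) :=
      aeval_hol (fun s i => g' i s) hg' G
    have hev : ∀ᶠ s in 𝓝 z, q s = 0 := by
      filter_upwards [hFG.continuous.continuousAt.eventually_ne hs] with s hz
      rcases mul_eq_zero.1 (h1 s) with h5 | h5
      · by_contra h6
        exact pow_ne_zero _ h6 h5
      · exact absurd h5 hz
    exact hq0 ((hq.differentiableOn.analyticOnNhd
      isOpen_univ).eqOn_zero_of_preconnected_of_eventuallyEq_zero
      isPreconnected_univ (Set.mem_univ z) hev (Set.mem_univ t0))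
  · intro j hj
    exact absurd hj (Set.notMem_empty j)
  · rintro G ⟨d, hd⟩ hz
    rw [hform G ⟨d, hd⟩]
    refine exp_indep lam hlam _ fun z => ?_
    have h1 := hval G z
    rw [hscale G d hd z] at h1
    rw [← h1]
    have h2 := hz z
    simp only at h2
    rw [h2, mul_zero]

end Pool.Agent.N234.JS
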